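import Pool.Agent.Helper1.Chordal

namespace Pool.Agent.Results.MP_4aa424_co.FirstFitChordal

open SimpleGraph

/-- A graph is chordal if every cycle of length at least four has a chord: an edge joining two
distinct vertices of the cycle which are not consecutive on it. -/
def Chordal {V : Type} (G : SimpleGraph V) : Prop :=
  ∀ n : ℕ, 4 ≤ n → ∀ c : cycleGraph n →g G, Function.Injective c →
    ∃ a b : Fin n, a ≠ b ∧ ¬ (cycleGraph n).Adj a b ∧ G.Adj (c a) (c b)

/-- The colour First-Fit gives to the vertex `v` when the vertices are presented in the order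
given by `e` (`e v` is the position of `v`): the least positive integer not already used on an
earlier neighbour of `v`. -/
noncomputable def ffColour {V : Type} [Fintype V] (G : SimpleGraph V)
    (e : V ≃ Fin (Fintype.card V)) (v : V) : ℕ :=
  sInf {t : ℕ | 1 ≤ t ∧ ∀ u : V, (h : e u < e v) → G.Adj u v → ffColour G e u ≠ t}
termination_by (e v).val
decreasing_by exact h

/-- The First-Fit chromatic number: the largest number of colours First-Fit uses, over all
orderings of the vertices. -/
noncomputable def firstFitNumber {V : Type} [Fintype V] (G : SimpleGraph V) : ℕ :=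
  ⨆ e : V ≃ Fin (Fintype.card V), (Set.range (ffColour G e)).ncard

section wall

variable {V : Type} [Fintype V] (G : SimpleGraph V) (lev : V → ℕ)

theorem exists_order : ∃ e : V ≃ Fin (Fintype.card V), ∀ u v, lev u < lev v → e u < e v := by
  classical
  let ε := Fintype.equivFin V
  let s := Tuple.sort (lev ∘ ε.symm)
  refine ⟨ε.trans s.symm, ?_⟩
  intro u v huv
  by_contra hle
  rw [not_lt] at hle
  have hm := Tuple.monotone_sort (lev ∘ ε.symm) hle
  simp [s] at hm
  omega

theorem ff_of_wall (hind : ∀ u v, G.Adj u v → lev u ≠ lev v)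
    (hwall : ∀ v, ∀ i < lev v, ∃ u, G.Adj u v ∧ lev u = i)
    (e : V ≃ Fin (Fintype.card V)) (he : ∀ u v, lev u < lev v → e u < e v) :
    ∀ v, ffColour G e v = lev v + 1 := by
  have key : ∀ n : ℕ, ∀ v, (e v).val = n → ffColour G e v = lev v + 1 := by
    intro n
    induction n using Nat.strong_induction_on with
    | _ n ih =>
      intro v hv
      rw [ffColour]
      have hset : {t : ℕ | 1 ≤ t ∧ ∀ u : V, (h : e u < e v) → G.Adj u v → ffColour G e u ≠ t}
          = {t : ℕ | 1 ≤ t ∧ ∀ u : V, e u < e v → G.Adj u v → lev u + 1 ≠ t} := by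
        ext t
        simp only [Set.mem_ofPred_eq]
        constructor
        · rintro ⟨h1, h2⟩
          refine ⟨h1, fun u hu hadj => ?_⟩
          have := h2 u hu hadj
          rwa [ih (e u).val (by rw [← hv]; exact hu) u rfl] at this
        · rintro ⟨h1, h2⟩
          refine ⟨h1, fun u hu hadj => ?_⟩
          rw [ih (e u).val (by rw [← hv]; exact hu) u rfl]
          exact h2 u hu hadj
      rw [hset]
      apply le_antisymm
      · apply Nat.sInf_le
        refine ⟨by omega, fun u _ hadj h => hind u v hadj (by omega)⟩
      · apply le_csInf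
        · exact ⟨lev v + 1, by omega, fun u _ hadj h => hind u v hadj (by omega)⟩
        · rintro t ⟨h1, h2⟩
          by_contra hlt
          obtain ⟨u, hadj, hu⟩ := hwall v (t - 1) (by omega)
          exact h2 u (he u v (by omega)) hadj (by omega)
  intro v
  exact key _ v rfl

theorem le_firstFit (hind : ∀ u v, G.Adj u v → lev u ≠ lev v)
    (hwall : ∀ v, ∀ i < lev v, ∃ u, G.Adj u v ∧ lev u = i) (v : V) :
    lev v ≤ firstFitNumber G := by
  classical
  obtain ⟨e, he⟩ := exists_order lev
  have hff := ff_of_wall G lev hind hwall e he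
  have h1 : lev v ≤ (Set.range (ffColour G e)).ncard := by
    have hsub : (((Finset.range (lev v)).image (fun i => i + 1) : Finset ℕ) : Set ℕ) ⊆
        Set.range (ffColour G e) := by
      intro t ht
      simp only [Finset.coe_image, Finset.coe_range, Set.mem_image, Set.mem_Iio] at ht
      obtain ⟨i, hi, rfl⟩ := ht
      obtain ⟨u, _, hu⟩ := hwall v i hi
      exact ⟨u, by rw [hff u, hu]⟩
    have := Set.ncard_le_ncard hsub (Set.finite_range _)
    rw [Set.ncard_coe_finset, Finset.card_image_of_injective _ (fun a b h => by simpa using h),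
      Finset.card_range] at this
    exact this
  refine h1.trans ?_
  exact le_ciSup (f := fun e : V ≃ Fin (Fintype.card V) => (Set.range (ffColour G e)).ncard)
    (Set.finite_range _).bddAbove e

end wall

section tree

variable {j : ℕ}

/-- `P` is the parent of `T` in the binomial tree on the subsets of `Fin j`. -/
def Par (P T : Finset (Fin j)) : Prop := ∃ i : Fin j, (∀ x ∈ P, i < x) ∧ T = insert i P

theorem par_unique {P P' T : Finset (Fin j)} (h : Par P T) (h' : Par P' T) : P = P' := by
  obtain ⟨i, hi, rfl⟩ := h
  obtain ⟨i', hi', h⟩ := h'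
  have hii : i = i' := by
    have h1 : i ∈ insert i' P' := by rw [← h]; exact Finset.mem_insert_self _ _
    have h2 : i' ∈ insert i P := by rw [h]; exact Finset.mem_insert_self _ _
    rcases Finset.mem_insert.1 h1 with h1 | h1
    · exact h1
    · rcases Finset.mem_insert.1 h2 with h2 | h2
      · exact h2.symm
      · exact absurd (hi _ h2) (not_lt.2 (hi' _ h1).le)
  subst hii
  have n1 : i ∉ P := fun hh => lt_irrefl _ (hi i hh)
  have n2 : i ∉ P' := fun hh => lt_irrefl _ (hi' i hh)
  rw [← Finset.erase_insert n1, ← Finset.erase_insert n2, h]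

theorem par_card {P T : Finset (Fin j)} (h : Par P T) : T.card = P.card + 1 := by
  obtain ⟨i, hi, rfl⟩ := h
  exact Finset.card_insert_of_notMem (fun hh => lt_irrefl _ (hi i hh))

/-- the least element, or `j` -/
noncomputable def lo (S : Finset (Fin j)) : ℕ := sInf {t | t = j ∨ ∃ x ∈ S, x.val = t}

theorem lo_le_j (S : Finset (Fin j)) : lo S ≤ j := Nat.sInf_le (Or.inl rfl)

theorem lo_le {S : Finset (Fin j)} {x : Fin j} (hx : x ∈ S) : lo S ≤ x.val :=
  Nat.sInf_le (Or.inr ⟨x, hx, rfl⟩)

theorem lo_mem (S : Finset (Fin j)) : lo S = j ∨ ∃ x ∈ S, x.val = lo S :=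
  Nat.sInf_mem (s := {t | t = j ∨ ∃ x ∈ S, x.val = t}) ⟨j, Or.inl rfl⟩

theorem lo_empty : lo (∅ : Finset (Fin j)) = j := by
  rcases lo_mem (∅ : Finset (Fin j)) with h | ⟨x, hx, _⟩
  · exact h
  · exact absurd hx (Finset.notMem_empty _)

theorem lo_insert {S : Finset (Fin j)} {i : Fin j} (hi : i.val < lo S) :
    lo (insert i S) = i.val := by
  apply le_antisymm (lo_le (Finset.mem_insert_self _ _))
  rcases lo_mem (insert i S) with h | ⟨x, hx, h⟩
  · rw [h]; exact i.isLt.le
  · rw [← h]
    rcases Finset.mem_insert.1 hx with hx | hx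
    · rw [hx]
    · exact (hi.trans_le (lo_le hx)).le

theorem lo_par {P T : Finset (Fin j)} (h : Par P T) : lo T < lo P := by
  obtain ⟨i, hi, rfl⟩ := h
  have : i.val < lo P := by
    rcases lo_mem P with h | ⟨x, hx, h⟩
    · rw [h]; exact i.isLt
    · rw [← h]; exact hi x hx
  rw [lo_insert this]
  exact this

end tree

section blowup

variable (j m r : ℕ)

/-- the vertex set: every node blown up to `m` vertices, the root to `m + r` -/
abbrev Vert : Type := (Finset (Fin j) × Fin m) ⊕ Fin r

/-- the node of a vertex -/
def node : Vert j m r → Finset (Fin j)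
  | Sum.inl p => p.1
  | Sum.inr _ => ∅

/-- the blow up of the binomial tree -/
def blow : SimpleGraph (Vert j m r) where
  Adj x y := x ≠ y ∧ (node j m r x = node j m r y ∨ Par (node j m r x) (node j m r y) ∨
    Par (node j m r y) (node j m r x))
  symm := ⟨fun _ _ h => ⟨h.1.symm, by
    rcases h.2 with h | h | h
    · exact Or.inl h.symm
    · exact Or.inr (Or.inr h)
    · exact Or.inr (Or.inl h)⟩⟩
  loopless := ⟨fun _ h => h.1 rfl⟩

/-- the level of a vertex -/
noncomputable def level : Vert j m r → ℕ
  | Sum.inl p => m * lo p.1 + p.2.val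
  | Sum.inr b => m * j + m + b.val

theorem level_ge (x : Vert j m r) : m * lo (node j m r x) ≤ level j m r x := by
  rcases x with ⟨S, a⟩ | b
  · simp [node, level]
  · simp only [node, level, lo_empty]; omega

theorem level_inj {x y : Vert j m r} (h : node j m r x = node j m r y)
    (hl : level j m r x = level j m r y) : x = y := by
  rcases x with ⟨S, a⟩ | b <;> rcases y with ⟨T, c⟩ | d
  · simp only [node] at h
    subst h
    simp only [level] at hl
    have : a = c := Fin.ext (by omega)
    rw [this]
  · simp only [node] at h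
    subst h
    simp only [level, lo_empty] at hl
    have := a.isLt
    omega
  · simp only [node] at h
    subst h
    simp only [level, lo_empty] at hl
    have := c.isLt
    omega
  · simp only [level] at hl
    have : b = d := Fin.ext (by omega)
    rw [this]

theorem level_par {x y : Vert j m r} (h : Par (node j m r x) (node j m r y)) :
    level j m r y < level j m r x := by
  have h1 := lo_par h
  have h2 := level_ge j m r x
  rcases y with ⟨T, c⟩ | d
  · have h1' : lo T < lo (node j m r x) := h1
    have e1 : level j m r (Sum.inl (T, c)) = m * lo T + c.val := rfl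
    rw [e1]
    have hc := c.isLt
    have : m * (lo T + 1) ≤ m * lo (node j m r x) := Nat.mul_le_mul_left _ h1'
    rw [mul_add, mul_one] at this
    omega
  · obtain ⟨i, _, hh⟩ := h
    have hh' : (∅ : Finset (Fin j)) = insert i (node j m r x) := hh
    have := Finset.mem_insert_self i (node j m r x)
    rw [← hh'] at this
    exact absurd this (Finset.notMem_empty _)

theorem hind : ∀ u v, (blow j m r).Adj u v → level j m r u ≠ level j m r v := by
  intro u v h hl
  rcases h.2 with h1 | h1 | h1
  · exact h.1 (level_inj j m r h1 hl)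
  · have := level_par j m r h1; omega
  · have := level_par j m r h1; omega

theorem child {x : Vert j m r} {i : ℕ} (hi : i < m * lo (node j m r x)) :
    ∃ u, (blow j m r).Adj u x ∧ level j m r u = i := by
  have hm : 0 < m := by
    rcases Nat.eq_zero_or_pos m with h | h
    · subst h; simp at hi
    · exact h
  have hq : i / m < lo (node j m r x) := by
    rw [Nat.div_lt_iff_lt_mul hm, mul_comm]; exact hi
  have hqj : i / m < j := hq.trans_le (lo_le_j _)
  have hpar : Par (node j m r x) (insert (⟨i / m, hqj⟩ : Fin j) (node j m r x)) := by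
    refine ⟨⟨i / m, hqj⟩, fun y hy => ?_, rfl⟩
    exact hq.trans_le (lo_le hy)
  refine ⟨Sum.inl (insert (⟨i / m, hqj⟩ : Fin j) (node j m r x), ⟨i % m, Nat.mod_lt _ hm⟩),
    ⟨?_, Or.inr (Or.inr hpar)⟩, ?_⟩
  · intro h
    have h3 := par_card hpar
    have h5 : insert (⟨i / m, hqj⟩ : Fin j) (node j m r x) = node j m r x :=
      congrArg (node j m r) h
    rw [h5] at h3
    omega
  · have e1 : level j m r (Sum.inl (insert (⟨i / m, hqj⟩ : Fin j) (node j m r x),
        ⟨i % m, Nat.mod_lt _ hm⟩)) =
        m * lo (insert (⟨i / m, hqj⟩ : Fin j) (node j m r x)) + i % m := rfl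
    rw [e1, lo_insert hq]
    exact Nat.div_add_mod i m

theorem hwall : ∀ v, ∀ i < level j m r v, ∃ u, (blow j m r).Adj u v ∧ level j m r u = i := by
  intro v i hi
  by_cases h : i < m * lo (node j m r v)
  · exact child j m r h
  · rw [not_lt] at h
    rcases v with ⟨S, a⟩ | b
    · simp only [node] at h
      simp only [level] at hi
      have ha := a.isLt
      refine ⟨Sum.inl (S, ⟨i - m * lo S, by omega⟩), ⟨?_, Or.inl rfl⟩, ?_⟩
      · intro hh
        have := congrArg (level j m r) hh
        simp only [level] at this
        omega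
      · simp only [level]
        omega
    · simp only [node, lo_empty] at h
      simp only [level] at hi
      have hb := b.isLt
      by_cases h2 : i < m * j + m
      · refine ⟨Sum.inl (∅, ⟨i - m * j, by omega⟩), ⟨by simp, Or.inl rfl⟩, ?_⟩
        simp only [level, lo_empty]
        omega
      · refine ⟨Sum.inr ⟨i - (m * j + m), by omega⟩, ⟨?_, Or.inl rfl⟩, ?_⟩
        · intro hh
          have := congrArg (level j m r) hh
          simp only [level] at this
          omega
        · simp only [level]
          omega

theorem chordal_blow : Chordal (blow j m r) := by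
  intro n hn c hc
  obtain ⟨k, rfl⟩ : ∃ k, n = k + 3 := ⟨n - 3, by omega⟩
  obtain ⟨a, _, ha⟩ := Finset.exists_max_image (Finset.univ : Finset (Fin (k + 3)))
    (fun a => (node j m r (c a)).card) ⟨0, Finset.mem_univ _⟩
  have hap := a.isLt
  obtain ⟨b, hb⟩ : ∃ b : Fin (k + 3), (b.val = a.val + 1) ∨ (a.val = k + 2 ∧ b.val = 0) := by
    by_cases h : a.val + 1 < k + 3
    · exact ⟨⟨a.val + 1, h⟩, Or.inl rfl⟩
    · exact ⟨⟨0, by omega⟩, Or.inr ⟨by omega, rfl⟩⟩
  obtain ⟨d, hd⟩ : ∃ d : Fin (k + 3), (a.val = d.val + 1) ∨ (a.val = 0 ∧ d.val = k + 2) := by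
    by_cases h : a.val = 0
    · exact ⟨⟨k + 2, by omega⟩, Or.inr ⟨by omega, rfl⟩⟩
    · exact ⟨⟨a.val - 1, by omega⟩, Or.inl (by simp only; omega)⟩
  have hba : (cycleGraph (k + 3)).Adj b a := by
    rw [Pool.Agent.Helper1.Chordal.cyc_adj]; omega
  have hda : (cycleGraph (k + 3)).Adj d a := by
    rw [Pool.Agent.Helper1.Chordal.cyc_adj]; omega
  have hbd : ¬ (cycleGraph (k + 3)).Adj b d := by
    rw [Pool.Agent.Helper1.Chordal.cyc_adj]; omega
  have hne : b ≠ d := by
    intro h
    subst h
    omega
  have key : ∀ x : Fin (k + 3), (cycleGraph (k + 3)).Adj x a →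
      node j m r (c x) = node j m r (c a) ∨ Par (node j m r (c x)) (node j m r (c a)) := by
    intro x hx
    have h1 := c.map_adj hx
    rcases h1.2 with h2 | h2 | h2
    · exact Or.inl h2
    · exact Or.inr h2
    · have := par_card h2
      have := ha x (Finset.mem_univ _)
      omega
  refine ⟨b, d, hne, hbd, fun h => hne (hc h), ?_⟩
  rcases key b hba with h1 | h1 <;> rcases key d hda with h2 | h2
  · exact Or.inl (h1.trans h2.symm)
  · rw [h1]; exact Or.inr (Or.inr h2)
  · rw [h2]; exact Or.inr (Or.inl h1)
  · exact Or.inl (par_unique h1 h2)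

open Classical in
theorem fiber_card (S : Finset (Fin j)) :
    (Finset.univ.filter (fun x : Vert j m r => node j m r x = S)).card ≤ m + r := by
  have hsub : Finset.univ.filter (fun x : Vert j m r => node j m r x = S) ⊆
      (Finset.univ.image (fun a : Fin m => (Sum.inl (S, a) : Vert j m r))) ∪
        (Finset.univ.image (fun b : Fin r => (Sum.inr b : Vert j m r))) := by
    intro x hx
    rw [Finset.mem_filter] at hx
    rcases x with ⟨T, a⟩ | b
    · have : T = S := hx.2
      subst this
      exact Finset.mem_union_left _ (Finset.mem_image_of_mem _ (Finset.mem_univ a))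
    · exact Finset.mem_union_right _ (Finset.mem_image_of_mem _ (Finset.mem_univ b))
  refine (Finset.card_le_card hsub).trans ((Finset.card_union_le _ _).trans ?_)
  apply Nat.add_le_add
  · exact Finset.card_image_le.trans (by simp)
  · exact Finset.card_image_le.trans (by simp)

open Classical in
theorem fiber_card' (S : Finset (Fin j)) (hS : S ≠ ∅) :
    (Finset.univ.filter (fun x : Vert j m r => node j m r x = S)).card ≤ m := by
  have hsub : Finset.univ.filter (fun x : Vert j m r => node j m r x = S) ⊆
      (Finset.univ.image (fun a : Fin m => (Sum.inl (S, a) : Vert j m r))) := by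
    intro x hx
    rw [Finset.mem_filter] at hx
    rcases x with ⟨T, a⟩ | b
    · have : T = S := hx.2
      subst this
      exact Finset.mem_image_of_mem _ (Finset.mem_univ a)
    · exact absurd hx.2.symm hS
  refine (Finset.card_le_card hsub).trans ?_
  exact Finset.card_image_le.trans (by simp)

theorem clique_le (K : Finset (Vert j m r)) (hK : (blow j m r).IsClique (K : Set (Vert j m r))) :
    K.card ≤ 2 * m + r := by
  classical
  rcases K.eq_empty_or_nonempty with rfl | hne
  · simp
  obtain ⟨v, hv, hmax⟩ := Finset.exists_max_image K (fun a => (node j m r a).card) hne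
  have key : ∀ x ∈ K, node j m r x = node j m r v ∨ Par (node j m r x) (node j m r v) := by
    intro x hx
    by_cases hxv : x = v
    · left; rw [hxv]
    · rcases (hK hx hv hxv).2 with h2 | h2 | h2
      · exact Or.inl h2
      · exact Or.inr h2
      · have := par_card h2
        have := hmax x hx
        omega
  by_cases hS : node j m r v = ∅
  · have hsub : K ⊆ Finset.univ.filter (fun x : Vert j m r => node j m r x = node j m r v) := by
      intro x hx
      rw [Finset.mem_filter]
      refine ⟨Finset.mem_univ _, ?_⟩
      rcases key x hx with h | h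
      · exact h
      · have := par_card h
        rw [hS] at this
        simp at this
    have := (Finset.card_le_card hsub).trans (fiber_card j m r _)
    omega
  · by_cases hP : ∃ P, Par P (node j m r v)
    · obtain ⟨P, hP⟩ := hP
      have hsub : K ⊆ Finset.univ.filter (fun x : Vert j m r => node j m r x = node j m r v) ∪
          Finset.univ.filter (fun x : Vert j m r => node j m r x = P) := by
        intro x hx
        rw [Finset.mem_union, Finset.mem_filter, Finset.mem_filter]
        rcases key x hx with h | h
        · exact Or.inl ⟨Finset.mem_univ _, h⟩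
        · exact Or.inr ⟨Finset.mem_univ _, par_unique h hP⟩
      have h1 := (Finset.card_le_card hsub).trans (Finset.card_union_le _ _)
      have h2 := fiber_card' j m r _ hS
      have h3 := fiber_card j m r P
      omega
    · have hsub : K ⊆ Finset.univ.filter (fun x : Vert j m r => node j m r x = node j m r v) := by
        intro x hx
        rw [Finset.mem_filter]
        refine ⟨Finset.mem_univ _, ?_⟩
        rcases key x hx with h | h
        · exact h
        · exact absurd ⟨_, h⟩ hP
      have := (Finset.card_le_card hsub).trans (fiber_card j m r _)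
      omega

theorem exists_clique (hj : 0 < j) :
    ∃ K : Finset (Vert j m r), (blow j m r).IsNClique (2 * m + r) K := by
  classical
  set T : Finset (Fin j) := {⟨0, hj⟩} with hT
  have hpar : Par (∅ : Finset (Fin j)) T := ⟨⟨0, hj⟩, fun x hx => absurd hx (Finset.notMem_empty _), by
    simp [hT]⟩
  have hTne : T ≠ ∅ := by simp [hT]
  let A : Finset (Vert j m r) := Finset.univ.image (fun a : Fin m => (Sum.inl (T, a) : Vert j m r))
  let B : Finset (Vert j m r) := Finset.univ.image (fun a : Fin m => (Sum.inl (∅, a) : Vert j m r))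
  let C : Finset (Vert j m r) := Finset.univ.image (fun b : Fin r => (Sum.inr b : Vert j m r))
  have hA : A.card = m := by
    rw [Finset.card_image_of_injective _ (fun a b h => by simpa using h)]; simp
  have hB : B.card = m := by
    rw [Finset.card_image_of_injective _ (fun a b h => by simpa using h)]; simp
  have hC : C.card = r := by
    rw [Finset.card_image_of_injective _ (fun a b h => by simpa using h)]; simp
  have hAB : Disjoint A B := by
    rw [Finset.disjoint_left]
    intro x hx hx'
    simp only [A, B, Finset.mem_image, Finset.mem_univ, true_and] at hx hx'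
    obtain ⟨a, rfl⟩ := hx
    obtain ⟨b, hb⟩ := hx'
    simp only [Sum.inl.injEq, Prod.mk.injEq] at hb
    exact hTne hb.1.symm
  have hABC : Disjoint (A ∪ B) C := by
    rw [Finset.disjoint_left]
    intro x hx hx'
    simp only [A, B, C, Finset.mem_union, Finset.mem_image, Finset.mem_univ, true_and] at hx hx'
    obtain ⟨b, rfl⟩ := hx'
    rcases hx with ⟨a, ha⟩ | ⟨a, ha⟩ <;> simp at ha
  refine ⟨A ∪ B ∪ C, ?_, ?_⟩
  · have hnode : ∀ x ∈ A ∪ B ∪ C, node j m r x = T ∨ node j m r x = ∅ := by
      intro x hx
      simp only [A, B, C, Finset.mem_union, Finset.mem_image, Finset.mem_univ, true_and] at hx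
      rcases hx with (⟨a, rfl⟩ | ⟨a, rfl⟩) | ⟨b, rfl⟩
      · exact Or.inl rfl
      · exact Or.inr rfl
      · exact Or.inr rfl
    intro x hx y hy hxy
    refine ⟨hxy, ?_⟩
    rcases hnode x hx with h1 | h1 <;> rcases hnode y hy with h2 | h2 <;> rw [h1, h2]
    · exact Or.inl rfl
    · exact Or.inr (Or.inr hpar)
    · exact Or.inr (Or.inl hpar)
    · exact Or.inl rfl
  · rw [Finset.card_union_of_disjoint hABC, Finset.card_union_of_disjoint hAB, hA, hB, hC]
    ring

theorem cliqueNum_blow (hj : 0 < j) : (blow j m r).cliqueNum = 2 * m + r := by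
  apply le_antisymm
  · obtain ⟨K, hK⟩ := (blow j m r).exists_isNClique_cliqueNum
    rw [← hK.2]
    exact clique_le j m r K hK.1
  · obtain ⟨K, hK⟩ := exists_clique j m r hj
    rw [← hK.2]
    exact hK.1.card_le_cliqueNum

end blowup

/-- There is an absolute constant `c > 0` such that for every `k ≥ 2` there are chordal graphs with
clique number `k` and arbitrarily many vertices whose First-Fit chromatic number is at least
`c k log n`. -/
theorem result : ∃ c : ℝ, 0 < c ∧ ∀ k : ℕ, 2 ≤ k → ∀ N : ℕ,
    ∃ (V : Type) (_ : Fintype V) (G : SimpleGraph V), N ≤ Fintype.card V ∧ Chordal G ∧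
      G.cliqueNum = k ∧ c * k * Real.log (Fintype.card V) ≤ firstFitNumber G := by
  refine ⟨1 / 6, by norm_num, ?_⟩
  intro k hk N
  set m := k / 2 with hm
  set r := k % 2 with hr
  have hm1 : 1 ≤ m := by omega
  have hr1 : r ≤ 1 := by omega
  have hkm : 2 * m + r = k := by omega
  set j := max N m with hj
  have hjN : N ≤ j := le_max_left _ _
  have hjm : m ≤ j := le_max_right _ _
  have hcard : Fintype.card (Vert j m r) = 2 ^ j * m + r := by
    simp [Fintype.card_sum, Fintype.card_prod, Fintype.card_finset, Fintype.card_fin]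
  have h2j : j < 2 ^ j := Nat.lt_two_pow_self
  have h2m : m < 2 ^ m := Nat.lt_two_pow_self
  refine ⟨Vert j m r, inferInstance, blow j m r, ?_, chordal_blow j m r, ?_, ?_⟩
  · rw [hcard]
    nlinarith
  · rw [cliqueNum_blow j m r (by omega), hkm]
  · have hlev : level j m r (Sum.inl (∅, ⟨0, hm1⟩)) = m * j := by
      simp [level, lo_empty]
    have hff := le_firstFit (blow j m r) (level j m r) (hind j m r) (hwall j m r)
      (Sum.inl (∅, ⟨0, hm1⟩))
    rw [hlev] at hff
    have hff' : (m : ℝ) * j ≤ (firstFitNumber (blow j m r) : ℝ) := by exact_mod_cast hff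
    refine le_trans ?_ hff'
    have hn : (Fintype.card (Vert j m r) : ℝ) ≤ (2 : ℝ) ^ (j + m) := by
      rw [hcard]
      have : 2 ^ j * m + r ≤ 2 ^ (j + m) := by
        rw [pow_add]
        nlinarith [Nat.one_le_two_pow (n := j)]
      exact_mod_cast this
    have hpos : (0 : ℝ) < Fintype.card (Vert j m r) := by
      rw [hcard]
      have : 0 < 2 ^ j * m + r := by positivity
      exact_mod_cast this
    have hlog : Real.log (Fintype.card (Vert j m r)) ≤ 2 * j := by
      have h1 := Real.log_le_log hpos hn
      rw [Real.log_pow] at h1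
      have h2 : Real.log 2 ≤ 1 := by
        have := Real.log_two_lt_d9
        linarith
      have h3 : ((j + m : ℕ) : ℝ) ≤ 2 * j := by
        have : j + m ≤ 2 * j := by omega
        exact_mod_cast this
      have h4 : (0 : ℝ) ≤ ((j + m : ℕ) : ℝ) := Nat.cast_nonneg _
      nlinarith
    have hk3 : (k : ℝ) ≤ 3 * m := by
      have : k ≤ 3 * m := by omega
      exact_mod_cast this
    have hj0 : (0 : ℝ) ≤ j := Nat.cast_nonneg _
    have hk0 : (0 : ℝ) ≤ k := Nat.cast_nonneg _
    calc 1 / 6 * (k : ℝ) * Real.log (Fintype.card (Vert j m r))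
        ≤ 1 / 6 * (k : ℝ) * (2 * j) := by gcongr
      _ ≤ 1 / 6 * (3 * m) * (2 * j) := by gcongr
      _ = m * j := by ring

end Pool.Agent.Results.MP_4aa424_co.FirstFitChordal
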